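import Pool.Agent.H223R3.Kalai.Basic

set_option autoImplicit false

namespace H223R3.EMC

open Finset ES903 H223R3.Kalai

/-- `H` has no `s + 1` pairwise disjoint members -/
def NoMatching {V : Type*} (H : Finset (Finset V)) (s : ℕ) : Prop :=
  ¬ ∃ e : Fin (s + 1) → Finset V, (∀ i, e i ∈ H) ∧ ∀ i j, i ≠ j → Disjoint (e i) (e j)

theorem sum_one {V : Type*} [DecidableEq V] (R : Finset V) :
    E R (fun _ => 1) = R.card + 1 := by
  unfold E
  rw [Finset.sum_powerset]
  have : ∀ j ∈ range (R.card + 1), ∑ S ∈ powersetCard j R, (1 : ℚ) / (R.card.choose S.card : ℚ) = 1 := by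
    intro j hj
    rw [Finset.sum_congr rfl (g := fun _ => (1 : ℚ) / (R.card.choose j : ℚ))
      (fun S hS => by rw [(mem_powersetCard.1 hS).2])]
    rw [Finset.sum_const, card_powersetCard, nsmul_eq_mul]
    have : (0 : ℚ) < R.card.choose j := by
      exact_mod_cast Nat.choose_pos (by simpa [Nat.lt_succ_iff] using hj)
    field_simp
  rw [Finset.sum_congr rfl this]
  simp

/-- the expected hitting time of an edge is at least `(n + 1) / (s + 1)` -/
theorem hitting {V : Type*} [DecidableEq V] [Fintype V] (H : Finset (Finset V)) (s : ℕ)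
    (hH : NoMatching H s) :
    (Fintype.card V : ℚ) + 1 ≤ (s + 1) * E univ (Fail (fun S : Finset V => ∃ e ∈ H, e ⊆ S)) := by
  have h1 := glueF (univ : Finset V) (s + 1) (fun _ S => ∃ e ∈ H, e ⊆ S)
  have h2 : E univ (Fail (compF (s + 1) (fun _ (S : Finset V) => ∃ e ∈ H, e ⊆ S))) =
      (Fintype.card V : ℚ) + 1 := by
    rw [← Finset.card_univ, ← sum_one (univ : Finset V)]
    congr 1
    funext S
    unfold Fail
    rw [if_neg]
    intro hc
    obtain ⟨P, p1, p2, p3⟩ := extractF _ _ _ hc
    choose e he1 he2 using p3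
    exact hH ⟨e, he1, fun i j hij =>
      Finset.disjoint_of_subset_left (he2 i) (Finset.disjoint_of_subset_right (he2 j) (p2 i j hij))⟩
  rw [h2, Finset.sum_const, card_univ, Fintype.card_fin, nsmul_eq_mul] at h1
  push_cast at h1
  exact h1

/-- the number of `m`-sets without an edge -/
noncomputable def ind {V : Type*} [Fintype V] [DecidableEq V] (H : Finset (Finset V)) (m : ℕ) :
    Finset (Finset V) :=
  by
    classical
    exact (powersetCard m univ).filter fun S => ∀ e ∈ H, ¬ e ⊆ S

theorem mem_ind {V : Type*} [Fintype V] [DecidableEq V] (H : Finset (Finset V)) (m : ℕ)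
    (S : Finset V) : S ∈ ind H m ↔ S.card = m ∧ ∀ e ∈ H, ¬ e ⊆ S := by
  classical
  unfold ind
  simp [mem_powersetCard]

theorem E_fail {V : Type*} [DecidableEq V] [Fintype V] (H : Finset (Finset V)) :
    E univ (Fail (fun S : Finset V => ∃ e ∈ H, e ⊆ S)) =
      ∑ m ∈ range (Fintype.card V + 1), ((ind H m).card : ℚ) / (Fintype.card V).choose m := by
  classical
  unfold E
  rw [Finset.sum_powerset, card_univ]
  refine Finset.sum_congr rfl fun m _ => ?_
  rw [Finset.sum_congr rfl (g := fun S => (if S ∈ ind H m then (1 : ℚ) else 0) /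
    ((Fintype.card V).choose m : ℚ))]
  · rw [← Finset.sum_div]
    congr 1
    rw [Finset.sum_ite, Finset.sum_const_zero, add_zero, Finset.sum_const, nsmul_eq_mul, mul_one]
    congr 2
    ext S
    simp only [mem_filter, mem_powersetCard, subset_univ, true_and]
    constructor
    · exact fun h => h.2
    · exact fun h => ⟨((mem_ind H m S).1 h).1, h⟩
  · intro S hS
    have hc : S.card = m := (mem_powersetCard.1 hS).2
    rw [hc]
    congr 1
    unfold Fail
    by_cases h : ∃ e ∈ H, e ⊆ S
    · rw [if_pos h, if_neg]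
      rw [mem_ind]
      rintro ⟨-, h2⟩
      obtain ⟨e, he, hes⟩ := h
      exact h2 e he hes
    · rw [if_neg h, if_pos]
      rw [mem_ind]
      push Not at h
      exact ⟨hc, h⟩

end H223R3.EMC
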