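import Pool.Agent.H223R3.EMC.Basic

set_option autoImplicit false

namespace H223R3.EMC

open Finset ES903 H223R3.Kalai

theorem choose_ratio (n y : ℕ) (hy : y ≤ n) (hn : 0 < n) : ∀ m : ℕ, m ≤ n →
    ((y.choose m : ℚ)) / n.choose m ≤ ((y : ℚ) / n) ^ m := by
  intro m
  induction m with
  | zero => intro _; simp
  | succ m ih =>
    intro hm
    have ih := ih (by omega)
    have hn' : (0 : ℚ) < n := by exact_mod_cast hn
    have h1 : (y.choose (m + 1) : ℚ) * (m + 1) = y.choose m * ((y - m : ℕ) : ℚ) := by
      exact_mod_cast Nat.choose_succ_right_eq y m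
    have h2 : (n.choose (m + 1) : ℚ) * (m + 1) = n.choose m * ((n - m : ℕ) : ℚ) := by
      exact_mod_cast Nat.choose_succ_right_eq n m
    have hnm : (0 : ℚ) < ((n - m : ℕ) : ℚ) := by
      have : 0 < n - m := by omega
      exact_mod_cast this
    have hc : (0 : ℚ) < n.choose m := by exact_mod_cast Nat.choose_pos (by omega)
    have hc1 : (0 : ℚ) < n.choose (m + 1) := by exact_mod_cast Nat.choose_pos hm
    have hm1 : (0 : ℚ) < (m : ℚ) + 1 := by positivity
    have h3 : (y.choose (m + 1) : ℚ) / n.choose (m + 1) =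
        (y.choose m : ℚ) / n.choose m * (((y - m : ℕ) : ℚ) / ((n - m : ℕ) : ℚ)) := by
      rw [div_mul_div_comm, ← h1, ← h2]
      rw [mul_div_mul_right _ _ hm1.ne']
    have h4 : ((y - m : ℕ) : ℚ) / ((n - m : ℕ) : ℚ) ≤ (y : ℚ) / n := by
      rw [div_le_div_iff₀ hnm hn']
      by_cases hym : m ≤ y
      · rw [Nat.cast_sub hym, Nat.cast_sub (by omega)]
        have : (y : ℚ) ≤ n := by exact_mod_cast hy
        have hm0 : (0 : ℚ) ≤ m := by positivity
        nlinarith
      · have : y - m = 0 := by omega
        rw [this]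
        simp only [Nat.cast_zero, zero_mul]
        positivity
    rw [h3, pow_succ]
    exact mul_le_mul ih h4 (by positivity) (by positivity)


end H223R3.EMC

namespace H223R3.EMC

open Finset ES903 H223R3.Kalai
open scoped FinsetFamily

theorem iter_sub {n : ℕ} (H : Finset (Finset (Fin n))) (k m : ℕ) (hkm : k ≤ m) :
    (∂^[m - k] (ind H m)) ⊆ ind H k := by
  intro t ht
  rw [Finset.mem_shadow_iterate_iff_exists_mem_card_add] at ht
  obtain ⟨s, hs, hts, hc⟩ := ht
  rw [mem_ind] at hs ⊢
  refine ⟨by omega, fun e he hes => hs.2 e he (hes.trans hts)⟩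

theorem ind_bound {n : ℕ} (H : Finset (Finset (Fin n))) (k y m : ℕ) (hky : k ≤ y) (hyn : y ≤ n)
    (hkm : k ≤ m) (hlt : (ind H k).card < y.choose k) : (ind H m).card ≤ y.choose m := by
  by_cases hmy : m ≤ y
  · by_contra hcon
    push Not at hcon
    have hs : ((ind H m : Finset (Finset (Fin n))) : Set (Finset (Fin n))).Sized m := by
      intro S hS
      exact ((mem_ind H m S).1 hS).1
    have kk := Finset.kruskal_katona_lovasz_form (i := m - k) (Nat.sub_le _ _) hmy hyn hs hcon.le
    rw [Nat.sub_sub_self hkm] at kk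
    have := Finset.card_le_card (iter_sub H k m hkm)
    omega
  · push Not at hmy
    rcases (ind H m).eq_empty_or_nonempty with h0 | ⟨S, hS⟩
    · rw [h0]; simp
    · exfalso
      have hS' := (mem_ind H m S).1 hS
      have h1 : powersetCard k S ⊆ ind H k := by
        intro t ht
        rw [mem_powersetCard] at ht
        rw [mem_ind]
        exact ⟨ht.2, fun e he hes => hS'.2 e he (hes.trans ht.1)⟩
      have h2 := Finset.card_le_card h1
      rw [card_powersetCard, hS'.1] at h2
      have h3 : y.choose k ≤ m.choose k := Nat.choose_le_choose k hmy.le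
      omega

theorem ind_k {n : ℕ} (H : Finset (Finset (Fin n))) (k : ℕ) (hH : ∀ e ∈ H, e.card = k) :
    (ind H k).card + H.card = n.choose k := by
  classical
  have h1 : ind H k = (powersetCard k (univ : Finset (Fin n))) \ H := by
    ext S
    rw [mem_ind, mem_sdiff, mem_powersetCard]
    constructor
    · rintro ⟨h1, h2⟩
      exact ⟨⟨subset_univ _, h1⟩, fun h => h2 S h (Subset.refl _)⟩
    · rintro ⟨⟨-, h1⟩, h2⟩
      refine ⟨h1, fun e he hes => h2 ?_⟩
      have : e = S := Finset.eq_of_subset_of_card_le hes (by rw [h1, hH e he])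
      rw [← this]; exact he
  have h2 : H ⊆ powersetCard k (univ : Finset (Fin n)) := by
    intro e he
    rw [mem_powersetCard]
    exact ⟨subset_univ _, hH e he⟩
  rw [h1, card_sdiff_of_subset h2, card_powersetCard, card_univ, Fintype.card_fin]
  have := card_le_card h2
  rw [card_powersetCard, card_univ, Fintype.card_fin] at this
  omega

theorem geom_tail (ρ : ℚ) (h0 : 0 ≤ ρ) (h1 : ρ < 1) (k N : ℕ) :
    ∑ m ∈ range N, (if m < k then (1 : ℚ) else ρ ^ m) ≤ k + ρ ^ k / (1 - ρ) := by
  have hpos : 0 < 1 - ρ := by linarith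
  -- exact partial sums
  have key : ∀ N : ℕ, ∑ m ∈ range N, (if m < k then (1 : ℚ) else ρ ^ m) ≤
      (min N k : ℕ) + (ρ ^ k - ρ ^ (max N k)) / (1 - ρ) := by
    intro N
    induction N with
    | zero => simp
    | succ N ih =>
      rw [Finset.sum_range_succ]
      by_cases hNk : N < k
      · rw [if_pos hNk]
        have e1 : min (N + 1) k = N + 1 := by omega
        have e2 : min N k = N := by omega
        have e3 : max (N + 1) k = k := by omega
        have e4 : max N k = k := by omega
        rw [e2, e4] at ih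
        rw [e1, e3]
        push_cast
        linarith
      · rw [if_neg hNk]
        have e1 : min (N + 1) k = k := by omega
        have e2 : min N k = k := by omega
        have e3 : max (N + 1) k = N + 1 := by omega
        have e4 : max N k = N := by omega
        rw [e2, e4] at ih
        rw [e1, e3]
        have : (ρ ^ k - ρ ^ (N + 1)) / (1 - ρ) = (ρ ^ k - ρ ^ N) / (1 - ρ) + ρ ^ N := by
          field_simp
          ring
        rw [this]
        linarith
  refine (key N).trans ?_
  have a1 : ((min N k : ℕ) : ℚ) ≤ k := by exact_mod_cast min_le_right _ _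
  have a2 : (ρ ^ k - ρ ^ (max N k)) / (1 - ρ) ≤ ρ ^ k / (1 - ρ) := by
    apply div_le_div_of_nonneg_right _ hpos.le
    have : 0 ≤ ρ ^ (max N k) := by positivity
    linarith
  linarith

/-- The general bound. -/
theorem main (n k s y : ℕ) (hky : k ≤ y) (hyn : y < n) (H : Finset (Finset (Fin n)))
    (hH : ∀ e ∈ H, e.card = k) (hM : NoMatching H s)
    (hs : ((s : ℚ) + 1) * (k + ((y : ℚ) / n) ^ k / (1 - (y : ℚ) / n)) < n + 1) :
    H.card + y.choose k ≤ n.choose k := by
  by_contra hcon
  push Not at hcon
  have hn : 0 < n := by omega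
  have hn' : (0 : ℚ) < n := by exact_mod_cast hn
  have h1 := ind_k H k hH
  have hlt : (ind H k).card < y.choose k := by omega
  have h2 := hitting H s hM
  rw [E_fail, Fintype.card_fin] at h2
  have hρ0 : (0 : ℚ) ≤ (y : ℚ) / n := by positivity
  have hρ1 : (y : ℚ) / n < 1 := by
    rw [div_lt_one hn']; exact_mod_cast hyn
  have h3 : ∑ m ∈ range (n + 1), ((ind H m).card : ℚ) / n.choose m ≤
      ∑ m ∈ range (n + 1), (if m < k then (1 : ℚ) else ((y : ℚ) / n) ^ m) := by
    refine Finset.sum_le_sum fun m hm => ?_
    have hmn : m ≤ n := by simpa [Nat.lt_succ_iff] using hm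
    have hc : (0 : ℚ) < n.choose m := by exact_mod_cast Nat.choose_pos hmn
    by_cases hmk : m < k
    · rw [if_pos hmk, div_le_one hc]
      have : ind H m ⊆ powersetCard m (univ : Finset (Fin n)) := by
        intro S hS
        rw [mem_powersetCard]
        exact ⟨subset_univ _, ((mem_ind H m S).1 hS).1⟩
      have := card_le_card this
      rw [card_powersetCard, card_univ, Fintype.card_fin] at this
      exact_mod_cast this
    · rw [if_neg hmk]
      push Not at hmk
      refine le_trans ?_ (choose_ratio n y hyn.le hn m hmn)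
      apply div_le_div_of_nonneg_right _ hc.le
      exact_mod_cast ind_bound H k y m hky hyn.le hmk hlt
  have h4 := geom_tail _ hρ0 hρ1 k (n + 1)
  have h5 : (0 : ℚ) ≤ (s : ℚ) + 1 := by positivity
  have h6 := mul_le_mul_of_nonneg_left (h3.trans h4) h5
  linarith

end H223R3.EMC
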