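import Pool.Agent.H223R3.EMC.Final

set_option autoImplicit false

namespace H223R3.EMC

open Finset

theorem noMatching_of {n k s : ℕ} (hk : 1 ≤ k) (F : Finset (Finset (Fin n)))
    (hF : ∀ A ∈ F, A.card = k)
    (hM : ∀ M ⊆ F, (M : Set (Finset (Fin n))).PairwiseDisjoint id → M.card ≤ s) :
    NoMatching F s := by
  classical
  rintro ⟨e, h1, h2⟩
  have hinj : Function.Injective e := by
    intro i j hij
    by_contra hne
    have h3 := h2 i j hne
    rw [hij, disjoint_self] at h3
    have h4 := hF _ (h1 j)
    rw [h3] at h4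
    simp at h4
    omega
  have h5 := hM (univ.image e) (by
    intro A hA
    obtain ⟨i, _, rfl⟩ := mem_image.1 hA
    exact h1 i) (by
    intro A hA B hB hAB
    rw [Finset.mem_coe, mem_image] at hA hB
    obtain ⟨i, _, rfl⟩ := hA
    obtain ⟨j, _, rfl⟩ := hB
    exact h2 i j (fun h => hAB (by rw [h])))
  rw [card_image_of_injective _ hinj, card_univ, Fintype.card_fin] at h5
  omega

theorem choose_clique (k s : ℕ) (hk : 1 ≤ k) :
    s * (k * (s + 1)).choose k = (s + 1) * (k * (s + 1) - 1).choose k := by
  have h0 : 0 < k * (s + 1) := by positivity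
  obtain ⟨N, hN⟩ : ∃ N, k * (s + 1) = N + 1 := ⟨k * (s + 1) - 1, by omega⟩
  have h1 := Nat.choose_mul_succ_eq N k
  have e1 : N + 1 - k = k * s := by
    have : k * (s + 1) = k * s + k := by ring
    omega
  rw [e1, ← hN] at h1
  have e2 : k * (s + 1) - 1 = N := by omega
  rw [e2]
  have h2 : k * (s * (k * (s + 1)).choose k) = k * ((s + 1) * N.choose k) := by
    calc k * (s * (k * (s + 1)).choose k) = (k * (s + 1)).choose k * (k * s) := by ring
      _ = N.choose k * (k * (s + 1)) := h1.symm
      _ = k * ((s + 1) * N.choose k) := by ring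
  exact Nat.eq_of_mul_eq_mul_left (by omega) h2

end H223R3.EMC
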