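import Pool.Agent.H223R3.EMC.Shift

set_option autoImplicit false

namespace H223R3.EMC

open Finset ES903 H223R3.Kalai
open scoped FinsetFamily

variable {n : ℕ}

/-- all the completions of `S` inside `R` are edges -/
def Good (H : Finset (Finset (Fin n))) (k : ℕ) (R S : Finset (Fin n)) : Prop :=
  S ⊆ R ∧ S.card ≤ k ∧ ∀ F : Finset (Fin n), F ⊆ R → Disjoint S F → S.card + F.card = k →
    S ∪ F ∈ H

def ff (H : Finset (Finset (Fin n))) (k : ℕ) (R S : Finset (Fin n)) : Prop :=
  ∃ S' ⊆ S, Good H k R S'

theorem no_comp (H : Finset (Finset (Fin n))) (k s : ℕ) (R : Finset (Fin n))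
    (hM : NoMatching H s) (hR : R.card = k * (s + 1)) (S : Finset (Fin n)) :
    ¬ compF (s + 1) (fun _ => ff H k R) S := by
  intro hc
  obtain ⟨P, _, p2, p3⟩ := extractF _ _ _ hc
  choose S' h1 h2 using p3
  have hdis : ∀ i j, i ≠ j → Disjoint (S' i) (S' j) := fun i j hij =>
    Finset.disjoint_of_subset_left (h1 i) (Finset.disjoint_of_subset_right (h1 j) (p2 i j hij))
  have hU : (univ.biUnion S').card = ∑ i, (S' i).card :=
    card_biUnion (fun i _ j _ hij => hdis i j hij)
  have hUR : univ.biUnion S' ⊆ R := by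
    intro x hx
    obtain ⟨i, _, hi⟩ := mem_biUnion.1 hx
    exact (h2 i).1 hi
  obtain ⟨F, f1, f2, f3⟩ := fillers (s + 1) (fun i => k - (S' i).card) (R \ univ.biUnion S') (by
    rw [card_sdiff_of_subset hUR, hU, hR]
    have e1 : ∑ i : Fin (s + 1), (k - (S' i).card) + ∑ i, (S' i).card = k * (s + 1) := by
      rw [← Finset.sum_add_distrib]
      rw [Finset.sum_congr rfl (g := fun _ => k) (fun i _ => Nat.sub_add_cancel (h2 i).2.1)]
      simp [mul_comm]
    omega)
  have hSF : ∀ i j, Disjoint (S' i) (F j) := by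
    intro i j
    rw [Finset.disjoint_left]
    intro x hx hx'
    exact (mem_sdiff.1 (f1 j hx')).2 (mem_biUnion.2 ⟨i, mem_univ _, hx⟩)
  refine hM ⟨fun i => S' i ∪ F i, fun i => ?_, fun i j hij => ?_⟩
  · refine (h2 i).2.2 (F i) ((f1 i).trans sdiff_subset) (hSF i i) ?_
    rw [f2 i]
    exact Nat.add_sub_of_le (h2 i).2.1
  · rw [Finset.disjoint_union_left, Finset.disjoint_union_right, Finset.disjoint_union_right]
    exact ⟨⟨hdis i j hij, hSF i j⟩, ⟨(hSF j i).symm, f3 i j hij⟩⟩

open Classical in
noncomputable def II (H : Finset (Finset (Fin n))) (k : ℕ) (R : Finset (Fin n)) (l : ℕ) :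
    Finset (Finset (Fin n)) :=
  (powersetCard l R).filter fun S => ¬ ff H k R S

theorem mem_II (H : Finset (Finset (Fin n))) (k : ℕ) (R : Finset (Fin n)) (l : ℕ)
    (S : Finset (Fin n)) : S ∈ II H k R l ↔ (S ⊆ R ∧ S.card = l) ∧ ¬ ff H k R S := by
  classical
  unfold II
  rw [mem_filter, mem_powersetCard]

theorem II_le (H : Finset (Finset (Fin n))) (k : ℕ) (R : Finset (Fin n)) (l : ℕ) :
    (II H k R l).card ≤ R.card.choose l := by
  rw [← card_powersetCard]
  apply card_le_card
  intro S hS
  rw [mem_powersetCard]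
  exact ((mem_II H k R l S).1 hS).1

theorem II_down (H : Finset (Finset (Fin n))) (k : ℕ) (R : Finset (Fin n)) (l m : ℕ)
    (S T : Finset (Fin n)) (hS : S ∈ II H k R m) (hT : T ⊆ S) (hc : T.card = l) :
    T ∈ II H k R l := by
  rw [mem_II] at hS ⊢
  refine ⟨⟨hT.trans hS.1.1, hc⟩, fun h => hS.2 ?_⟩
  obtain ⟨S', h1, h2⟩ := h
  exact ⟨S', h1.trans hT, h2⟩

theorem E_ineq (H : Finset (Finset (Fin n))) (k s : ℕ) (R : Finset (Fin n))
    (hM : NoMatching H s) (hR : R.card = k * (s + 1)) :
    (R.card : ℚ) + 1 ≤ (s + 1) *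
      ∑ l ∈ range (R.card + 1), ((II H k R l).card : ℚ) / R.card.choose l := by
  classical
  have h1 := glueF R (s + 1) (fun _ => ff H k R)
  have h2 : E R (Fail (compF (s + 1) (fun _ => ff H k R))) = (R.card : ℚ) + 1 := by
    rw [← sum_one R]
    congr 1
    funext S
    unfold Fail
    rw [if_neg (no_comp H k s R hM hR S)]
  rw [h2, Finset.sum_const, card_univ, Fintype.card_fin, nsmul_eq_mul] at h1
  push_cast at h1
  have h3 : E R (Fail (ff H k R)) =
      ∑ l ∈ range (R.card + 1), ((II H k R l).card : ℚ) / R.card.choose l := by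
    unfold E
    rw [Finset.sum_powerset]
    refine Finset.sum_congr rfl fun m _ => ?_
    rw [Finset.sum_congr rfl (g := fun S => (if S ∈ II H k R m then (1 : ℚ) else 0) /
      (R.card.choose m : ℚ))]
    · rw [← Finset.sum_div]
      congr 1
      rw [Finset.sum_ite, Finset.sum_const_zero, add_zero, Finset.sum_const, nsmul_eq_mul, mul_one]
      congr 2
      ext S
      simp only [mem_filter, mem_powersetCard]
      constructor
      · exact fun h => h.2
      · exact fun h => ⟨((mem_II H k R m S).1 h).1, h⟩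
    · intro S hS
      have hc := mem_powersetCard.1 hS
      rw [hc.2]
      congr 1
      unfold Fail
      by_cases h : ff H k R S
      · rw [if_pos h, if_neg]
        rw [mem_II]
        rintro ⟨-, h2⟩
        exact h2 h
      · rw [if_neg h, if_pos]
        rw [mem_II]
        exact ⟨hc, h⟩
  rw [h3] at h1
  exact h1

/-- counting the edges through their traces on `R` -/
theorem count (H : Finset (Finset (Fin n))) (k r : ℕ) (hH : ∀ e ∈ H, e.card = k)
    (hS : Shifted H) (R : Finset (Fin n)) (hR : ∀ a, a ∈ R ↔ (a : ℕ) < r) :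
    H.card ≤ ∑ l ∈ range (k + 1),
      (R.card.choose l - (II H k R l).card) * (n - R.card).choose (k - l) := by
  classical
  have hmaps : ∀ e ∈ H, (e ∩ R).card ∈ range (k + 1) := by
    intro e he
    have := card_le_card (inter_subset_left : e ∩ R ⊆ e)
    rw [hH e he] at this
    exact mem_range.2 (by omega)
  rw [Finset.card_eq_sum_card_fiberwise hmaps]
  refine Finset.sum_le_sum fun l hl => ?_
  have h1 : (R.card.choose l - (II H k R l).card) * (n - R.card).choose (k - l) =
      (((powersetCard l R) \ II H k R l) ×ˢ (powersetCard (k - l) (univ \ R))).card := by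
    rw [card_product, card_sdiff_of_subset, card_powersetCard, card_powersetCard,
      card_sdiff_of_subset (subset_univ _), card_univ, Fintype.card_fin]
    intro S hS
    rw [mem_powersetCard]
    exact ((mem_II H k R l S).1 hS).1
  rw [h1]
  refine Finset.card_le_card_of_injOn (fun e => (e ∩ R, e \ R)) ?_ ?_
  · intro e he
    rw [Finset.mem_coe, mem_filter] at he
    obtain ⟨he, hel⟩ := he
    have hsplit : (e ∩ R).card + (e \ R).card = k := by
      rw [← hH e he, add_comm]; exact Finset.card_sdiff_add_card_inter e R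
    rw [Finset.mem_coe, mem_product, mem_sdiff, mem_powersetCard, mem_powersetCard]
    refine ⟨⟨⟨inter_subset_right, hel⟩, ?_⟩, ⟨sdiff_subset_sdiff (subset_univ _) subset_rfl, by
      change (e \ R).card = k - l
      omega⟩⟩
    intro hbad
    rw [mem_II] at hbad
    apply hbad.2
    refine ⟨e ∩ R, subset_rfl, inter_subset_right, by omega, ?_⟩
    intro F hF hdis hc
    refine replace H hS (e \ R).card (e ∩ R) (e \ R) F rfl (by omega) ?_ hdis ?_ ?_
    · rw [Finset.disjoint_left]
      intro x hx hx'
      exact (mem_sdiff.1 hx').2 (mem_inter.1 hx).2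
    · intro a ha b hb
      have h2 := (hR a).1 (hF ha)
      have h3 : ¬ (b : ℕ) < r := fun h => (mem_sdiff.1 hb).2 ((hR b).2 h)
      exact Fin.lt_def.2 (by omega)
    · have : e ∩ R ∪ e \ R = e := by
        ext x
        simp only [mem_union, mem_inter, mem_sdiff]
        tauto
      rw [this]; exact he
  · intro e _ e' _ h
    simp only [Prod.mk.injEq] at h
    ext x
    have h1 := Finset.ext_iff.1 h.1 x
    have h2 := Finset.ext_iff.1 h.2 x
    simp only [mem_inter, mem_sdiff] at h1 h2
    tauto

theorem kk_up (H : Finset (Finset (Fin n))) (k : ℕ) (R : Finset (Fin n)) (y m : ℕ)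
    (hyn : y ≤ n) (hkm : k ≤ m) (hlt : (II H k R k).card < y.choose k) :
    (II H k R m).card ≤ y.choose m := by
  by_cases hmy : m ≤ y
  · by_contra hcon
    push Not at hcon
    have hs : ((II H k R m : Finset (Finset (Fin n))) : Set (Finset (Fin n))).Sized m := by
      intro S hS
      exact ((mem_II H k R m S).1 hS).1.2
    have kk := Finset.kruskal_katona_lovasz_form (i := m - k) (Nat.sub_le _ _) hmy hyn hs hcon.le
    rw [Nat.sub_sub_self hkm] at kk
    have hsub : (∂^[m - k] (II H k R m)) ⊆ II H k R k := by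
      intro t ht
      rw [Finset.mem_shadow_iterate_iff_exists_mem_card_add] at ht
      obtain ⟨S, hS, hts, hc⟩ := ht
      have := ((mem_II H k R m S).1 hS).1.2
      exact II_down H k R k m S t hS hts (by omega)
    have := Finset.card_le_card hsub
    omega
  · push Not at hmy
    rcases (II H k R m).eq_empty_or_nonempty with h0 | ⟨S, hS⟩
    · rw [h0]; simp
    · exfalso
      have h1 : powersetCard k S ⊆ II H k R k := by
        intro t ht
        rw [mem_powersetCard] at ht
        exact II_down H k R k m S t hS ht.1 ht.2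
      have h2 := Finset.card_le_card h1
      rw [card_powersetCard, ((mem_II H k R m S).1 hS).1.2] at h2
      have h3 : y.choose k ≤ m.choose k := Nat.choose_le_choose k hmy.le
      omega

theorem kk_down (H : Finset (Finset (Fin n))) (k : ℕ) (R : Finset (Fin n)) (z l : ℕ)
    (hzn : z ≤ n) (hkz : k ≤ z) (hlk : l ≤ k) (hle : z.choose k ≤ (II H k R k).card) :
    z.choose l ≤ (II H k R l).card := by
  have hs : ((II H k R k : Finset (Finset (Fin n))) : Set (Finset (Fin n))).Sized k := by
    intro S hS
    exact ((mem_II H k R k S).1 hS).1.2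
  have kk := Finset.kruskal_katona_lovasz_form (i := k - l) (Nat.sub_le _ _) hkz hzn hs hle
  rw [Nat.sub_sub_self hlk] at kk
  have hsub : (∂^[k - l] (II H k R k)) ⊆ II H k R l := by
    intro t ht
    rw [Finset.mem_shadow_iterate_iff_exists_mem_card_add] at ht
    obtain ⟨S, hS, hts, hc⟩ := ht
    have := ((mem_II H k R k S).1 hS).1.2
    exact II_down H k R l k S t hS hts (by omega)
  exact kk.trans (Finset.card_le_card hsub)

end H223R3.EMC
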