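import Pool.Agent.H223R3.EMC.Bound

set_option autoImplicit false

namespace H223R3.EMC

open Finset

/-- `C(r,l) C(d,k-l) ≤ C(r,k-1) d` for `l < k` -/
theorem term_le (r d k : ℕ) (h : k * d + k ≤ r) : ∀ j l : ℕ, l + j + 1 = k →
    r.choose l * d.choose (j + 1) ≤ r.choose (k - 1) * d := by
  intro j
  induction j with
  | zero =>
    intro l hl
    have : k - 1 = l := by omega
    rw [this]
    simp
  | succ j ih =>
    intro l hl
    have ih := ih (l + 1) (by omega)
    refine le_trans ?_ ih
    have h1 : r.choose (l + 1) * (l + 1) = r.choose l * (r - l) := Nat.choose_succ_right_eq r l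
    have h2 : d.choose (j + 1 + 1) * (j + 1 + 1) = d.choose (j + 1) * (d - (j + 1)) :=
      Nat.choose_succ_right_eq d (j + 1)
    have h3 : (l + 1) * d ≤ r - l := by
      have : (l + 1) * d ≤ k * d := Nat.mul_le_mul_right d (by omega)
      omega
    have h4 : r.choose l * d ≤ r.choose (l + 1) := by
      have : (r.choose l * d) * (l + 1) ≤ r.choose (l + 1) * (l + 1) := by
        rw [h1, mul_assoc, mul_comm d]
        exact Nat.mul_le_mul_left _ h3
      exact Nat.le_of_mul_le_mul_right this (by omega)
    have h5 : d.choose (j + 1 + 1) ≤ d.choose (j + 1) * d := by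
      have e1 : d.choose (j + 1 + 1) ≤ d.choose (j + 1 + 1) * (j + 1 + 1) :=
        Nat.le_mul_of_pos_right _ (by omega)
      refine e1.trans ?_
      rw [h2]
      exact Nat.mul_le_mul_left _ (Nat.sub_le _ _)
    calc r.choose l * d.choose (j + 1 + 1) ≤ r.choose l * (d.choose (j + 1) * d) :=
          Nat.mul_le_mul_left _ h5
      _ = (r.choose l * d) * d.choose (j + 1) := by ring
      _ ≤ r.choose (l + 1) * d.choose (j + 1) := Nat.mul_le_mul_right _ h4

theorem choose_diff (N k : ℕ) : ∀ t : ℕ, (N + t).choose (k + 1) ≤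
    N.choose (k + 1) + t * (N + t - 1).choose k := by
  intro t
  induction t with
  | zero => simp
  | succ t ih =>
    have h1 : (N + (t + 1)).choose (k + 1) = (N + t).choose k + (N + t).choose (k + 1) := by
      rw [← Nat.add_assoc, Nat.choose_succ_succ]
    have h2 : (N + t - 1).choose k ≤ (N + t).choose k := Nat.choose_le_choose k (by omega)
    have h3 : N + (t + 1) - 1 = N + t := by omega
    rw [h1, h3]
    nlinarith

/-- a Bernoulli type bound for binomial coefficients -/
theorem choose_bern (N d M J : ℕ) (hM : 0 < M) (hMN : M + J ≤ N + d + 1) (hJ : J * d ≤ M)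
    (hJN : J ≤ N) : ∀ j : ℕ, j ≤ J →
    (1 - (j : ℚ) * d / M) * (N + d).choose j ≤ N.choose j := by
  intro j
  induction j with
  | zero => intro _; simp
  | succ j ih =>
    intro hj
    have ih := ih (by omega)
    have hM' : (0 : ℚ) < M := by exact_mod_cast hM
    have h1 : (N.choose (j + 1) : ℚ) * (j + 1) = N.choose j * ((N : ℚ) - j) := by
      have := Nat.choose_succ_right_eq N j
      have h2 : ((N - j : ℕ) : ℚ) = (N : ℚ) - j := Nat.cast_sub (by omega)
      rw [← h2]
      exact_mod_cast this
    have h2 : ((N + d).choose (j + 1) : ℚ) * (j + 1) =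
        (N + d).choose j * ((N : ℚ) + d - j) := by
      have := Nat.choose_succ_right_eq (N + d) j
      have h2 : ((N + d - j : ℕ) : ℚ) = (N : ℚ) + d - j := by
        rw [Nat.cast_sub (by omega)]; push_cast; ring
      rw [← h2]
      exact_mod_cast this
    have hj1 : (0 : ℚ) < (j : ℚ) + 1 := by positivity
    set A : ℚ := (N.choose j : ℚ)
    set B : ℚ := ((N + d).choose j : ℚ)
    have hB : 0 ≤ B := by positivity
    have hNj : (M : ℚ) ≤ (N : ℚ) + d - j := by
      have : M + j ≤ N + d := by omega
      have : (M : ℚ) + j ≤ N + d := by exact_mod_cast this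
      linarith
    have hjd : (j : ℚ) * d ≤ M := by
      have : j * d ≤ M := le_trans (Nat.mul_le_mul_right d (by omega)) hJ
      exact_mod_cast this
    have hd0 : (0 : ℚ) ≤ d := by positivity
    have hNj0 : (0 : ℚ) ≤ (N : ℚ) - j := by
      have : (j : ℚ) ≤ N := by exact_mod_cast (by omega : j ≤ N)
      linarith
    have key : (1 - ((j : ℚ) + 1) * d / M) * (B * ((N : ℚ) + d - j)) ≤ A * ((N : ℚ) - j) := by
      have e1 : (1 - (j : ℚ) * d / M) * B * ((N : ℚ) - j) ≤ A * ((N : ℚ) - j) :=
        mul_le_mul_of_nonneg_right ih hNj0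
      refine le_trans ?_ e1
      have e2 : (1 - ((j : ℚ) + 1) * d / M) * ((N : ℚ) + d - j) ≤
          (1 - (j : ℚ) * d / M) * ((N : ℚ) - j) := by
        have e3 : (1 - (j : ℚ) * d / M) * ((N : ℚ) - j) -
            (1 - ((j : ℚ) + 1) * d / M) * ((N : ℚ) + d - j) =
            (d / M) * (((N : ℚ) + d - j) - M + (j : ℚ) * d) := by
          field_simp
          ring
        have e4 : 0 ≤ (d / M : ℚ) * (((N : ℚ) + d - j) - M + (j : ℚ) * d) := by
          have : (0 : ℚ) ≤ (j : ℚ) * d := by positivity
          have : (0 : ℚ) ≤ (d / M : ℚ) := by positivity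
          apply mul_nonneg this
          linarith
        linarith
      nlinarith [mul_le_mul_of_nonneg_left e2 hB]
    have h3 : (1 - ((j + 1 : ℕ) : ℚ) * d / M) * ((N + d).choose (j + 1) : ℚ) * ((j : ℚ) + 1) ≤
        (N.choose (j + 1) : ℚ) * (j + 1) := by
      rw [h1, mul_assoc, h2]
      push_cast
      exact key
    exact le_of_mul_le_mul_right h3 hj1

/-- decay of the ratios -/
theorem ratio_decay (r y k : ℕ) (hy : y ≤ r) (hr : 0 < r) : ∀ i : ℕ, k + i ≤ r →
    ((y.choose (k + i) : ℚ)) / r.choose (k + i) ≤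
      ((y.choose k : ℚ)) / r.choose k * ((y : ℚ) / r) ^ i := by
  intro i
  induction i with
  | zero => intro _; simp
  | succ i ih =>
    intro hm
    have ih := ih (by omega)
    have hn' : (0 : ℚ) < r := by exact_mod_cast hr
    set m := k + i with hmdef
    have hms : k + (i + 1) = m + 1 := by omega
    rw [hms]
    have h1 : (y.choose (m + 1) : ℚ) * (m + 1) = y.choose m * ((y - m : ℕ) : ℚ) := by
      exact_mod_cast Nat.choose_succ_right_eq y m
    have h2 : (r.choose (m + 1) : ℚ) * (m + 1) = r.choose m * ((r - m : ℕ) : ℚ) := by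
      exact_mod_cast Nat.choose_succ_right_eq r m
    have hnm : (0 : ℚ) < ((r - m : ℕ) : ℚ) := by
      have : 0 < r - m := by omega
      exact_mod_cast this
    have hm1 : (0 : ℚ) < (m : ℚ) + 1 := by positivity
    have h3 : (y.choose (m + 1) : ℚ) / r.choose (m + 1) =
        (y.choose m : ℚ) / r.choose m * (((y - m : ℕ) : ℚ) / ((r - m : ℕ) : ℚ)) := by
      rw [div_mul_div_comm, ← h1, ← h2]
      rw [mul_div_mul_right _ _ hm1.ne']
    have h4 : ((y - m : ℕ) : ℚ) / ((r - m : ℕ) : ℚ) ≤ (y : ℚ) / r := by
      rw [div_le_div_iff₀ hnm hn']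
      by_cases hym : m ≤ y
      · rw [Nat.cast_sub hym, Nat.cast_sub (by omega)]
        have : (y : ℚ) ≤ r := by exact_mod_cast hy
        have hm0 : (0 : ℚ) ≤ m := by positivity
        nlinarith
      · have : y - m = 0 := by omega
        rw [this]
        simp only [Nat.cast_zero, zero_mul]
        positivity
    rw [h3, pow_succ, ← mul_assoc]
    exact mul_le_mul ih h4 (by positivity) (by positivity)

theorem geom_le (β : ℚ) (h0 : 0 ≤ β) (h1 : β < 1) (N : ℕ) :
    ∑ i ∈ range N, β ^ (i + 1) ≤ β / (1 - β) := by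
  have hpos : 0 < 1 - β := by linarith
  have key : ∀ N : ℕ, ∑ i ∈ range N, β ^ (i + 1) = (β - β ^ (N + 1)) / (1 - β) := by
    intro N
    induction N with
    | zero => simp
    | succ N ih =>
      rw [Finset.sum_range_succ, ih]
      field_simp
      ring
  rw [key]
  apply div_le_div_of_nonneg_right _ hpos.le
  have : 0 ≤ β ^ (N + 1) := by positivity
  linarith

end H223R3.EMC
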