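import Pool.Agent.H223R3.EMC.Core
import Pool.Agent.H223R3.EMC.Num

set_option autoImplicit false

namespace H223R3.EMC

open Finset

theorem vand (r d k : ℕ) : (r + d).choose k = ∑ l ∈ range (k + 1), r.choose l * d.choose (k - l) := by
  rw [Nat.add_choose_eq, Finset.Nat.sum_antidiagonal_eq_sum_range_succ
    (fun i j => r.choose i * d.choose j)]

/-- Case B -/
theorem caseB (k s d z : ℕ) (hk : 3 ≤ k) (hs : 6 ≤ s) (hds : 4 * k * d ≤ s)
    (hz : z ≤ k * (s + 1)) (hB : 4 * k * (k * (s + 1) - z) ≤ 3 * (k * (s + 1))) :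
    (k * (s + 1) + d).choose k ≤ (k * (s + 1)).choose k + (z + d).choose k := by
  set r := k * (s + 1) with hr
  obtain ⟨k', rfl⟩ : ∃ k', k = k' + 1 := ⟨k - 1, by omega⟩
  have hrpos : 0 < r := by positivity
  have h1 := choose_diff (z + d) k' (r - z)
  have e1 : z + d + (r - z) = r + d := by omega
  rw [e1] at h1
  have hkd : (k' + 1) * d ≤ s := by nlinarith
  have h2 := choose_bern (r - 1) d ((k' + 1) * s) k' (by positivity)
    (by
      have : (k' + 1) * s + (k' + 1) = r := by rw [hr]; ring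
      omega)
    (by nlinarith)
    (by
      have : (k' + 1) * s + (k' + 1) = r := by rw [hr]; ring
      have : 0 < (k' + 1) * s := by positivity
      omega) k' le_rfl
  have e2 : r - 1 + d = r + d - 1 := by omega
  rw [e2] at h2
  set X : ℚ := ((r + d - 1).choose k' : ℚ) with hX
  have hX0 : 0 ≤ X := by positivity
  have h3 : (11 / 12 : ℚ) ≤ 1 - (k' : ℚ) * d / (((k' + 1) * s : ℕ) : ℚ) := by
    have hpos : (0 : ℚ) < (((k' + 1) * s : ℕ) : ℚ) := by
      have : 0 < (k' + 1) * s := by positivity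
      exact_mod_cast this
    have h4 : (k' : ℚ) * d / (((k' + 1) * s : ℕ) : ℚ) ≤ 1 / 12 := by
      rw [div_le_div_iff₀ hpos (by norm_num)]
      have : k' * d * 12 ≤ 1 * ((k' + 1) * s) := by nlinarith
      exact_mod_cast this
    linarith
  have h4 : (11 / 12 : ℚ) * X ≤ ((r - 1).choose k' : ℚ) :=
    (mul_le_mul_of_nonneg_right h3 hX0).trans h2
  have h5 : ((k' + 1 : ℕ) : ℚ) * (r.choose (k' + 1) : ℚ) = r * ((r - 1).choose k' : ℚ) := by
    obtain ⟨r', hr'⟩ : ∃ r', r = r' + 1 := ⟨r - 1, by omega⟩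
    rw [hr']
    have := Nat.add_one_mul_choose_eq r' k'
    have e : r' + 1 - 1 = r' := by omega
    rw [e]
    have h6 : ((k' + 1 : ℕ)) * ((r' + 1).choose (k' + 1)) = (r' + 1) * (r'.choose k') := by
      rw [this]; ring
    exact_mod_cast h6
  by_contra hcon
  push Not at hcon
  have h6 : r.choose (k' + 1) < (r - z) * (r + d - 1).choose k' := by omega
  have h7 : (r.choose (k' + 1) : ℚ) < ((r - z : ℕ) : ℚ) * X := by
    rw [hX]
    exact_mod_cast h6
  have h8 : (4 : ℚ) * ((k' + 1 : ℕ) : ℚ) * ((r - z : ℕ) : ℚ) ≤ 3 * r := by exact_mod_cast hB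
  have hk0 : (0 : ℚ) < ((k' + 1 : ℕ) : ℚ) := by positivity
  have hr0 : (0 : ℚ) < r := by exact_mod_cast hrpos
  have h9 : (r : ℚ) * ((11 / 12 : ℚ) * X) ≤ r * ((r - 1).choose k' : ℚ) :=
    mul_le_mul_of_nonneg_left h4 hr0.le
  have h10 : ((k' + 1 : ℕ) : ℚ) * (r.choose (k' + 1) : ℚ) <
      ((k' + 1 : ℕ) : ℚ) * (((r - z : ℕ) : ℚ) * X) := mul_lt_mul_of_pos_left h7 hk0
  have h11 : 4 * (((k' + 1 : ℕ) : ℚ) * (((r - z : ℕ) : ℚ) * X)) ≤ 3 * r * X := by
    have := mul_le_mul_of_nonneg_right h8 hX0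
    linarith
  have h12 : 0 ≤ (r : ℚ) * X := by positivity
  rw [h5] at h10
  nlinarith

/-- the arithmetic of Case A -/
theorem caseA (k s d y : ℕ) (J Q c β : ℚ) (hk : 3 ≤ k) (hs : 6 ≤ s)
    (hc1 : 4 * k * c ≤ 1) (hc2 : 1 ≤ c * (s + 1)) (hβ0 : 0 ≤ β) (hβ1 : β ≤ 1)
    (hβ : β * (k * (s + 1)) = y) (hQ0 : 0 ≤ Q) (hQ : Q ≤ β ^ 3) (hy : k ≤ y)
    (hJ0 : 0 ≤ J) (hJ : Q * ((y : ℚ) - k) ≤ J * y)
    (hmain : J < c * (J + 2 * k * (β * Q) - 1 / (s + 1))) : False := by
  have hk' : (3 : ℚ) ≤ k := by exact_mod_cast hk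
  have hs' : (7 : ℚ) ≤ s + 1 := by
    have : (6 : ℚ) ≤ s := by exact_mod_cast hs
    linarith
  have hc0 : 0 ≤ c := by
    by_contra h
    push Not at h
    nlinarith
  have hc3 : c ≤ 1 / 12 := by nlinarith
  have hβQ : 0 ≤ β * Q := by positivity
  have h1 : c * (2 * k * (β * Q)) ≤ 1 / 2 * (β * Q) := by nlinarith
  have h2 : 1 / ((s : ℚ) + 1) ^ 2 ≤ c * (1 / (s + 1)) := by
    have hp : (0 : ℚ) < s + 1 := by linarith
    rw [mul_one_div, div_le_div_iff₀ (by positivity) hp]
    nlinarith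
  have h3 : (1 - c) * J < 1 / 2 * (β * Q) - 1 / ((s : ℚ) + 1) ^ 2 := by
    have : c * (J + 2 * k * (β * Q) - 1 / (s + 1)) =
      c * J + c * (2 * k * (β * Q)) - c * (1 / (s + 1)) := by ring
    rw [this] at hmain
    linarith
  have hsq : 0 < 1 / ((s : ℚ) + 1) ^ 2 := by positivity
  by_cases hy3 : 3 * k ≤ y
  · have hy3' : (3 : ℚ) * k ≤ y := by exact_mod_cast hy3
    have hypos : (0 : ℚ) < y := by linarith
    have h4 : 2 / 3 * Q ≤ J := by
      have : 2 / 3 * Q * y ≤ J * y := by nlinarith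
      exact le_of_mul_le_mul_right this hypos
    have h5 : 11 / 12 * J ≤ (1 - c) * J := mul_le_mul_of_nonneg_right (by linarith) hJ0
    have h6 : β * Q ≤ Q := by nlinarith
    linarith
  · push Not at hy3
    have hy3' : (y : ℚ) < 3 * k := by exact_mod_cast hy3
    have hp : (0 : ℚ) < s + 1 := by linarith
    have h4 : β * (s + 1) ≤ 3 := by
      have : β * (s + 1) * k ≤ 3 * k := by
        have e : β * (s + 1) * k = y := by rw [← hβ]; ring
        linarith
      exact le_of_mul_le_mul_right this (by linarith)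
    have h5 : 0 ≤ (1 - c) * J := mul_nonneg (by linarith) hJ0
    have h6 : 1 / ((s : ℚ) + 1) ^ 2 < 1 / 2 * (β * Q) := by linarith
    have h7 : β * Q ≤ β ^ 4 := by
      have := mul_le_mul_of_nonneg_left hQ hβ0
      calc β * Q ≤ β * β ^ 3 := this
        _ = β ^ 4 := by ring
    have h8 : β ^ 4 * ((s : ℚ) + 1) ^ 4 ≤ 81 := by
      have e0 : 0 ≤ β * (s + 1) := by positivity
      have : (β * (s + 1)) ^ 4 ≤ 3 ^ 4 := pow_le_pow_left₀ e0 h4 4
      calc β ^ 4 * ((s : ℚ) + 1) ^ 4 = (β * (s + 1)) ^ 4 := by ring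
        _ ≤ 3 ^ 4 := this
        _ = 81 := by norm_num
    rw [div_lt_iff₀ (by positivity)] at h6
    have h9 : 1 < 1 / 2 * β ^ 4 * ((s : ℚ) + 1) ^ 2 := by
      have : 1 / 2 * (β * Q) * ((s : ℚ) + 1) ^ 2 ≤ 1 / 2 * β ^ 4 * ((s : ℚ) + 1) ^ 2 := by
        apply mul_le_mul_of_nonneg_right _ (by positivity)
        linarith
      linarith
    have h10 : ((s : ℚ) + 1) ^ 2 < 1 / 2 * 81 := by
      have e1 : ((s : ℚ) + 1) ^ 2 * 1 < ((s : ℚ) + 1) ^ 2 * (1 / 2 * β ^ 4 * ((s : ℚ) + 1) ^ 2) :=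
        mul_lt_mul_of_pos_left h9 (by positivity)
      have e2 : ((s : ℚ) + 1) ^ 2 * (1 / 2 * β ^ 4 * ((s : ℚ) + 1) ^ 2) =
          1 / 2 * (β ^ 4 * ((s : ℚ) + 1) ^ 4) := by ring
      rw [e2] at e1
      linarith
    nlinarith

theorem exists_R (n r : ℕ) (hrn : r ≤ n) : ∃ R : Finset (Fin n), R.card = r ∧
    ∀ a, a ∈ R ↔ (a : ℕ) < r := by
  refine ⟨univ.map (Fin.castLEEmb hrn), by simp, fun a => ?_⟩
  rw [mem_map]
  constructor
  · rintro ⟨b, _, rfl⟩
    exact b.2
  · intro h
    exact ⟨⟨a, h⟩, mem_univ _, by ext; rfl⟩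

/-- the step that does not depend on the numbers -/
theorem step1 (n k s d : ℕ) (hn : n = k * (s + 1) + d)
    (H : Finset (Finset (Fin n))) (hH : ∀ e ∈ H, e.card = k)
    (hS : Shifted H) (R : Finset (Fin n)) (hRc : R.card = k * (s + 1))
    (hR : ∀ a, a ∈ R ↔ (a : ℕ) < k * (s + 1)) (hcon : (k * (s + 1)).choose k < H.card) :
    (II H k R k).card < ∑ l ∈ range k,
      ((k * (s + 1)).choose l - (II H k R l).card) * d.choose (k - l) := by
  have h1 := count H k (k * (s + 1)) hH hS R hR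
  have h2 : n - R.card = d := by omega
  rw [h2, Finset.sum_range_succ, Nat.sub_self, Nat.choose_zero_right, mul_one, hRc] at h1
  have h3 := II_le H k R k
  rw [hRc] at h3
  omega

theorem finB (n k s d z : ℕ) (hk : 3 ≤ k) (hs : 6 ≤ s) (hds : 4 * k * d ≤ s)
    (hn : n = k * (s + 1) + d)
    (H : Finset (Finset (Fin n))) (R : Finset (Fin n)) (hRc : R.card = k * (s + 1))
    (h1 : (II H k R k).card < ∑ l ∈ range k,
      ((k * (s + 1)).choose l - (II H k R l).card) * d.choose (k - l))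
    (hz : z ≤ k * (s + 1)) (hza : z.choose k ≤ (II H k R k).card)
    (hB : 4 * k * (k * (s + 1) - z) ≤ 3 * (k * (s + 1))) : False := by
  have hb := caseB k s d z hk hs hds hz hB
  set r := k * (s + 1) with hr
  have hkz : k ≤ z := by
    by_contra hcon
    push Not at hcon
    have h2 : 7 * k ≤ r := by rw [hr]; nlinarith
    have h3 : 6 * k ≤ r - z := by omega
    have h4 : 3 * (r - z) * 4 ≤ 4 * k * (r - z) := by nlinarith
    omega
  have h2 : ∀ l ∈ range k, ((r.choose l - (II H k R l).card) * d.choose (k - l)) +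
      z.choose l * d.choose (k - l) ≤ r.choose l * d.choose (k - l) := by
    intro l hl
    have e1 := kk_down H k R z l (by omega) hkz (mem_range.1 hl).le hza
    have e2 := II_le H k R l
    rw [hRc] at e2
    rw [← add_mul]
    exact Nat.mul_le_mul_right _ (by omega)
  have h3 := Finset.sum_le_sum h2
  rw [Finset.sum_add_distrib] at h3
  have v1 := vand r d k
  have v2 := vand z d k
  rw [Finset.sum_range_succ, Nat.sub_self, Nat.choose_zero_right, mul_one] at v1 v2
  omega

theorem finA (n k s d z : ℕ) (hk : 3 ≤ k) (hs : 6 ≤ s) (hds : 4 * k * d ≤ s) (hd : 1 ≤ d)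
    (hn : n = k * (s + 1) + d)
    (H : Finset (Finset (Fin n))) (hM : NoMatching H s)
    (R : Finset (Fin n)) (hRc : R.card = k * (s + 1))
    (h1 : (II H k R k).card < ∑ l ∈ range k,
      ((k * (s + 1)).choose l - (II H k R l).card) * d.choose (k - l))
    (hkz : k ≤ z + 1) (hza : z.choose k ≤ (II H k R k).card)
    (hy : (II H k R k).card < (z + 1).choose k)
    (hA : 3 * (k * (s + 1)) < 4 * k * (k * (s + 1) - z)) : False := by
  have hE := E_ineq H k s R hM hRc
  rw [hRc] at hE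
  set r := k * (s + 1) with hr
  set y := z + 1 with hydef
  have h7 : 7 * k ≤ r := by rw [hr]; nlinarith
  have hzr : z < r := by
    by_contra hcon
    have : r - z = 0 := by omega
    rw [this] at hA
    omega
  have hyr : y ≤ r := hzr
  have hrpos : 0 < r := by omega
  have hr0 : (0 : ℚ) < r := by exact_mod_cast hrpos
  have hgap : r < 2 * k * (r - y) := by
    have e1 : r - z = (r - y) + 1 := by omega
    rw [e1] at hA
    nlinarith
  have hCrk : 0 < r.choose k := Nat.choose_pos (by omega)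
  have hC0 : (0 : ℚ) < r.choose k := by exact_mod_cast hCrk
  set a : ℕ → ℕ := fun l => (II H k R l).card with ha
  have hale : ∀ l, a l ≤ r.choose l := fun l => by
    have := II_le H k R l
    rwa [hRc] at this
  set Jf : ℕ → ℚ := fun l => (a l : ℚ) / r.choose l with hJf
  have hk1 : (1 : ℚ) ≤ k := by exact_mod_cast (by omega : 1 ≤ k)
  have hsp : (0 : ℚ) < (s : ℚ) + 1 := by positivity
  set c : ℚ := (r.choose (k - 1) : ℚ) * d / r.choose k with hc
  have hc0 : 0 ≤ c := by positivity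
  have hcval : c * ((k : ℚ) * s + 1) = k * d := by
    have e1 := Nat.choose_succ_right_eq r (k - 1)
    have e2 : k - 1 + 1 = k := by omega
    rw [e2] at e1
    have e3 : r - (k - 1) = k * s + 1 := by
      rw [hr]
      have : k * (s + 1) = k * s + k := by ring
      omega
    rw [e3] at e1
    have e4 : (r.choose k : ℚ) * k = r.choose (k - 1) * ((k : ℚ) * s + 1) := by exact_mod_cast e1
    rw [hc, div_mul_eq_mul_div, div_eq_iff hC0.ne']
    nlinarith
  have hc1 : 4 * (k : ℚ) * c ≤ 1 := by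
    have hds' : 4 * (k : ℚ) * d ≤ s := by exact_mod_cast hds
    have hp : (0 : ℚ) < (k : ℚ) * s + 1 := by positivity
    have : 4 * (k : ℚ) * c * ((k : ℚ) * s + 1) ≤ 1 * ((k : ℚ) * s + 1) := by
      have e : 4 * (k : ℚ) * c * ((k : ℚ) * s + 1) = 4 * k * (k * d) := by
        rw [← hcval]; ring
      rw [e]
      nlinarith
    exact le_of_mul_le_mul_right this hp
  have hc2 : 1 ≤ c * (s + 1) := by
    have hd' : (1 : ℚ) ≤ d := by exact_mod_cast hd
    have hp : (0 : ℚ) < (k : ℚ) * s + 1 := by positivity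
    have : 1 * ((k : ℚ) * s + 1) ≤ c * (s + 1) * ((k : ℚ) * s + 1) := by
      have e : c * (s + 1) * ((k : ℚ) * s + 1) = (k * d) * (s + 1) := by
        rw [← hcval]; ring
      rw [e]
      have e2 : (k : ℚ) * (s + 1) ≤ k * d * (s + 1) := by
        have : (k : ℚ) ≤ k * d := by nlinarith
        exact mul_le_mul_of_nonneg_right this hsp.le
      linarith
    exact le_of_mul_le_mul_right this hp
  set β : ℚ := (y : ℚ) / r with hβd
  have hyr' : (y : ℚ) ≤ r := by exact_mod_cast hyr
  have hβ0 : 0 ≤ β := by positivity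
  have hgap' : (r : ℚ) < 2 * k * ((r : ℚ) - y) := by
    have : ((r - y : ℕ) : ℚ) = (r : ℚ) - y := Nat.cast_sub hyr
    rw [← this]
    exact_mod_cast hgap
  have hβgap : 1 < 2 * k * (1 - β) := by
    have e : (1 - β) = ((r : ℚ) - y) / r := by
      rw [hβd]; field_simp
    rw [e, ← mul_div_assoc, lt_div_iff₀ hr0, one_mul]
    exact hgap'
  have hβ1 : β < 1 := by
    by_contra hcon
    push Not at hcon
    have : 2 * (k : ℚ) * (1 - β) ≤ 0 := by
      apply mul_nonpos_of_nonneg_of_nonpos (by positivity)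
      linarith
    linarith
  have hβ : β * (k * (s + 1)) = y := by
    have : (r : ℚ) = k * (s + 1) := by rw [hr]; push_cast; ring
    rw [← this, hβd]
    field_simp
  set Q : ℚ := (y.choose k : ℚ) / r.choose k with hQd
  have hQ0 : 0 ≤ Q := by positivity
  have hQ3 : Q ≤ β ^ 3 := by
    have e1 := choose_ratio r y hyr hrpos k (by omega)
    exact e1.trans (pow_le_pow_of_le_one hβ0 hβ1.le hk)
  have hJ0 : 0 ≤ Jf k := by positivity
  have hJ : Q * ((y : ℚ) - k) ≤ Jf k * y := by
    have e1 := Nat.choose_mul_succ_eq z k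
    have e2 : ((z + 1 - k : ℕ) : ℚ) = (y : ℚ) - k := by
      rw [Nat.cast_sub hkz]
    have e3 : (z.choose k : ℚ) * y = (y.choose k : ℚ) * ((y : ℚ) - k) := by
      rw [← e2]
      exact_mod_cast e1
    have e4 : (z.choose k : ℚ) ≤ a k := by exact_mod_cast hza
    rw [hQd, hJf]
    change (y.choose k : ℚ) / r.choose k * ((y : ℚ) - k) ≤ (a k : ℚ) / r.choose k * y
    rw [div_mul_eq_mul_div, div_mul_eq_mul_div, ← e3]
    apply div_le_div_of_nonneg_right _ hC0.le
    exact mul_le_mul_of_nonneg_right e4 (by positivity)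
  -- the lower part of the sum
  have hlow : Jf k < c * ((k : ℚ) - ∑ l ∈ range k, Jf l) := by
    have e1 : ((a k : ℕ) : ℚ) < ∑ l ∈ range k, (1 - Jf l) * ((r.choose (k - 1) : ℚ) * d) := by
      have e2 : ((a k : ℕ) : ℚ) < ((∑ l ∈ range k,
          (r.choose l - a l) * d.choose (k - l) : ℕ) : ℚ) := by
        exact_mod_cast h1
      refine lt_of_lt_of_le e2 ?_
      rw [Nat.cast_sum]
      refine Finset.sum_le_sum fun l hl => ?_
      have hl' := mem_range.1 hl
      have e3 := term_le r d k (by nlinarith) (k - 1 - l) l (by omega)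
      have e4 : k - 1 - l + 1 = k - l := by omega
      rw [e4] at e3
      have e5 : (r.choose l : ℚ) * d.choose (k - l) ≤ (r.choose (k - 1) : ℚ) * d := by
        exact_mod_cast e3
      have hCl : (0 : ℚ) < r.choose l := by
        exact_mod_cast Nat.choose_pos (by omega : l ≤ r)
      have e6 : (0 : ℚ) ≤ 1 - Jf l := by
        have : Jf l ≤ 1 := by
          rw [hJf]
          change (a l : ℚ) / r.choose l ≤ 1
          rw [div_le_one hCl]
          exact_mod_cast hale l
        linarith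
      have e7 : (((r.choose l - a l) * d.choose (k - l) : ℕ) : ℚ) =
          (1 - Jf l) * ((r.choose l : ℚ) * d.choose (k - l)) := by
        rw [Nat.cast_mul, Nat.cast_sub (hale l)]
        change ((r.choose l : ℚ) - a l) * d.choose (k - l) =
          (1 - (a l : ℚ) / r.choose l) * ((r.choose l : ℚ) * d.choose (k - l))
        field_simp
      rw [e7]
      exact mul_le_mul_of_nonneg_left e5 e6
    rw [← Finset.sum_mul, Finset.sum_sub_distrib, Finset.sum_const, card_range, nsmul_eq_mul,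
      mul_one] at e1
    change (a k : ℚ) / r.choose k < c * ((k : ℚ) - ∑ l ∈ range k, Jf l)
    rw [div_lt_iff₀ hC0, hc]
    have e8 : (r.choose (k - 1) : ℚ) * d / r.choose k * ((k : ℚ) - ∑ l ∈ range k, Jf l) *
        r.choose k = ((k : ℚ) - ∑ l ∈ range k, Jf l) * ((r.choose (k - 1) : ℚ) * d) := by
      field_simp
    rw [e8]
    exact e1
  -- the upper part of the sum
  have hup : ∑ l ∈ range (r + 1), Jf l ≤ ∑ l ∈ range k, Jf l + Jf k + 2 * k * (β * Q) := by
    have e1 : r + 1 = (k + 1) + (r - k) := by omega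
    rw [e1, Finset.sum_range_add, Finset.sum_range_succ]
    have e2 : ∑ i ∈ range (r - k), Jf (k + 1 + i) ≤ ∑ i ∈ range (r - k), Q * β ^ (i + 1) := by
      refine Finset.sum_le_sum fun i hi => ?_
      have hi' := mem_range.1 hi
      have e3 := kk_up H k R y (k + 1 + i) (by omega) (by omega) hy
      have e4 := ratio_decay r y k hyr hrpos (i + 1) (by omega)
      have e5 : k + (i + 1) = k + 1 + i := by omega
      rw [e5] at e4
      refine le_trans ?_ e4
      change (a (k + 1 + i) : ℚ) / r.choose (k + 1 + i) ≤ _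
      apply div_le_div_of_nonneg_right _ (by positivity)
      exact_mod_cast e3
    rw [← Finset.mul_sum] at e2
    have e3 := geom_le β hβ0 hβ1 (r - k)
    have e4 : β / (1 - β) ≤ 2 * k * β := by
      rw [div_le_iff₀ (by linarith)]
      nlinarith
    have e5 : Q * ∑ i ∈ range (r - k), β ^ (i + 1) ≤ Q * (2 * k * β) :=
      mul_le_mul_of_nonneg_left (e3.trans e4) hQ0
    have e6 : Q * (2 * k * β) = 2 * k * (β * Q) := by ring
    linarith
  have hE' : (k : ℚ) + 1 / (s + 1) ≤ ∑ l ∈ range (r + 1), Jf l := by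
    have e1 : ((r : ℚ) + 1) ≤ (s + 1) * ∑ l ∈ range (r + 1), Jf l := hE
    have e2 : (r : ℚ) = k * (s + 1) := by rw [hr]; push_cast; ring
    have e3 : ((k : ℚ) + 1 / (s + 1)) * (s + 1) ≤ (∑ l ∈ range (r + 1), Jf l) * (s + 1) := by
      have : ((k : ℚ) + 1 / (s + 1)) * (s + 1) = r + 1 := by
        rw [e2]; field_simp
      rw [this]
      linarith
    exact le_of_mul_le_mul_right e3 hsp
  have hmain : Jf k < c * (Jf k + 2 * k * (β * Q) - 1 / (s + 1)) := by
    refine lt_of_lt_of_le hlow (mul_le_mul_of_nonneg_left ?_ hc0)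
    linarith
  exact caseA k s d y (Jf k) Q c β hk hs hc1 hc2 hβ0 hβ1.le hβ hQ0 hQ3 hkz hJ0 hJ hmain

/-- the near perfect case -/
theorem near_perfect (n k s d : ℕ) (hk : 3 ≤ k) (hs : 6 ≤ s) (hds : 4 * k * d ≤ s)
    (hn : n = k * (s + 1) + d)
    (H : Finset (Finset (Fin n))) (hH : ∀ e ∈ H, e.card = k)
    (hM : NoMatching H s) : H.card ≤ (k * (s + 1)).choose k := by
  rcases Nat.eq_zero_or_pos d with hd | hd
  · subst hd
    have : H ⊆ powersetCard k univ := fun e he => by
      rw [mem_powersetCard]; exact ⟨subset_univ _, hH e he⟩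
    have h2 := card_le_card this
    rw [card_powersetCard, card_univ, Fintype.card_fin] at h2
    have h3 : n.choose k = (k * (s + 1)).choose k := by
      have : n = k * (s + 1) := by omega
      rw [this]
    omega
  obtain ⟨H', g1, g2, g3, g4⟩ := exists_shifted H k s hH hM
  by_contra hcon
  push Not at hcon
  rw [← g1] at hcon
  obtain ⟨R, hRc, hR⟩ := exists_R n (k * (s + 1)) (by omega)
  have h1 := step1 n k s d hn H' g2 g4 R hRc hR hcon
  have hak : (II H' k R k).card ≤ (k * (s + 1)).choose k := by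
    have := II_le H' k R k
    rwa [hRc] at this
  have hkr : k ≤ k * (s + 1) := Nat.le_mul_of_pos_right _ (by omega)
  have hex : ∃ y : ℕ, (II H' k R k).card < y.choose k := by
    refine ⟨k * (s + 1) + 1, lt_of_le_of_lt hak ?_⟩
    obtain ⟨k', hk'⟩ : ∃ k', k = k' + 1 := ⟨k - 1, by omega⟩
    have e1 : (k * (s + 1) + 1).choose k =
        (k * (s + 1)).choose (k - 1) + (k * (s + 1)).choose k := by
      have := Nat.choose_succ_succ (k * (s + 1)) (k - 1)
      have e : (k - 1).succ = k := by omega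
      rw [e] at this
      exact this
    rw [e1]
    have : 0 < (k * (s + 1)).choose (k - 1) := Nat.choose_pos (by omega)
    omega
  classical
  obtain ⟨y, hy, hmin⟩ : ∃ y : ℕ, (II H' k R k).card < y.choose k ∧
      ∀ m < y, m.choose k ≤ (II H' k R k).card :=
    ⟨Nat.find hex, Nat.find_spec hex, fun m hm => by
      have := Nat.find_min hex hm
      omega⟩
  have hky : k ≤ y := by
    by_contra hc
    push Not at hc
    rw [Nat.choose_eq_zero_of_lt hc] at hy
    omega
  have hyle : y ≤ k * (s + 1) + 1 := by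
    by_contra hc
    push Not at hc
    have e1 := hmin (k * (s + 1) + 1) hc
    have e2 : (k * (s + 1) + 1).choose k =
        (k * (s + 1)).choose (k - 1) + (k * (s + 1)).choose k := by
      have := Nat.choose_succ_succ (k * (s + 1)) (k - 1)
      have e : (k - 1).succ = k := by omega
      rw [e] at this
      exact this
    have : 0 < (k * (s + 1)).choose (k - 1) := Nat.choose_pos (by omega)
    omega
  obtain ⟨z, rfl⟩ : ∃ z, y = z + 1 := ⟨y - 1, by omega⟩
  have hza := hmin z (by omega)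
  by_cases hB : 4 * k * (k * (s + 1) - z) ≤ 3 * (k * (s + 1))
  · exact finB n k s d z hk hs hds hn H' R hRc h1 (by omega) hza hB
  · push Not at hB
    exact finA n k s d z hk hs hds hd hn H' g3 R hRc h1 hky hza hy hB

end H223R3.EMC
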