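import Pool.Agent.H223R3.EMC.Bound

set_option autoImplicit false

namespace H223R3.EMC

open Finset

variable {n : ℕ}

/-- one shift of a set -/
def mv (H : Finset (Finset (Fin n))) (i j : Fin n) (e : Finset (Fin n)) : Finset (Fin n) :=
  if j ∈ e ∧ i ∉ e ∧ insert i (e.erase j) ∉ H then insert i (e.erase j) else e

theorem mv_inj (H : Finset (Finset (Fin n))) (i j : Fin n) :
    Set.InjOn (mv H i j) H := by
  intro e he e' he' h
  unfold mv at h
  by_cases h1 : j ∈ e ∧ i ∉ e ∧ insert i (e.erase j) ∉ H
  · by_cases h2 : j ∈ e' ∧ i ∉ e' ∧ insert i (e'.erase j) ∉ H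
    · rw [if_pos h1, if_pos h2] at h
      ext x
      have hx := Finset.ext_iff.1 h x
      simp only [mem_insert, mem_erase] at hx
      by_cases hxj : x = j
      · subst hxj; simp [h1.1, h2.1]
      · by_cases hxi : x = i
        · subst hxi; simp [h1.2.1, h2.2.1]
        · simpa [hxj, hxi] using hx
    · rw [if_pos h1, if_neg h2] at h
      exact absurd (h ▸ he' : insert i (e.erase j) ∈ H) h1.2.2
  · by_cases h2 : j ∈ e' ∧ i ∉ e' ∧ insert i (e'.erase j) ∉ H
    · rw [if_neg h1, if_pos h2] at h
      exact absurd (h ▸ he : insert i (e'.erase j) ∈ H) h2.2.2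
    · rw [if_neg h1, if_neg h2] at h
      exact h

theorem mv_card (H : Finset (Finset (Fin n))) (i j : Fin n) (e : Finset (Fin n)) :
    (mv H i j e).card = e.card := by
  unfold mv
  split_ifs with h
  · have hi : i ∉ e.erase j := fun hh => h.2.1 (mem_of_mem_erase hh)
    rw [card_insert_of_notMem hi, card_erase_of_mem h.1]
    have := card_pos.2 ⟨j, h.1⟩
    omega
  · rfl

theorem mv_noMatching (H : Finset (Finset (Fin n))) (i j : Fin n) (hij : i ≠ j) (s : ℕ)
    (hM : NoMatching H s) : NoMatching (H.image (mv H i j)) s := by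
  rintro ⟨e, he, hd⟩
  have hcase : ∀ v, e v ∈ H ∧ ((j ∈ e v ∧ i ∉ e v) → insert i ((e v).erase j) ∈ H) ∨
      ∃ a ∈ H, j ∈ a ∧ i ∉ a ∧ e v = insert i (a.erase j) := by
    intro v
    obtain ⟨a, ha, hav⟩ := mem_image.1 (he v)
    unfold mv at hav
    split_ifs at hav with h
    · exact Or.inr ⟨a, ha, h.1, h.2.1, hav.symm⟩
    · refine Or.inl ⟨hav ▸ ha, ?_⟩
      rw [← hav]
      rintro ⟨h1, h2⟩
      by_contra h3
      exact h ⟨h1, h2, h3⟩
  by_cases hall : ∀ v, e v ∈ H
  · exact hM ⟨e, hall, hd⟩
  · push Not at hall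
    obtain ⟨t, ht⟩ := hall
    rcases hcase t with h | ⟨a, ha, hja, hia, hta⟩
    · exact ht h.1
    have hit : i ∈ e t := by rw [hta]; exact mem_insert_self _ _
    have hin : ∀ v, v ≠ t → i ∉ e v := fun v hv hh =>
      (Finset.disjoint_left.1 (hd v t hv)) hh hit
    have hoth : ∀ v, v ≠ t → e v ∈ H ∧ (j ∈ e v → insert i ((e v).erase j) ∈ H) := by
      intro v hv
      rcases hcase v with h | ⟨b, hb, hjb, hib, hvb⟩
      · exact ⟨h.1, fun hj => h.2 ⟨hj, hin v hv⟩⟩
      · exact absurd (by rw [hvb]; exact mem_insert_self _ _) (hin v hv)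
    have hmemt : ∀ x, x ∈ a → x = j ∨ (x ∈ e t ∧ x ≠ i) := by
      intro x hx
      by_cases hxj : x = j
      · exact Or.inl hxj
      · refine Or.inr ⟨?_, fun h => hia (h ▸ hx)⟩
        rw [hta]
        exact mem_insert_of_mem (mem_erase.2 ⟨hxj, hx⟩)
    refine hM ⟨fun v => if v = t then a else if j ∈ e v then insert i ((e v).erase j) else e v,
      ?_, ?_⟩
    · intro v
      dsimp only
      split_ifs with h1 h2
      · exact ha
      · exact (hoth v h1).2 h2
      · exact (hoth v h1).1
    · have hmem : ∀ v, v ≠ t → ∀ x, x ∈ (if j ∈ e v then insert i ((e v).erase j) else e v) →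
          (j ∈ e v ∧ (x = i ∨ (x ∈ e v ∧ x ≠ j))) ∨ (j ∉ e v ∧ x ∈ e v) := by
        intro v _ x hx
        split_ifs at hx with h
        · left
          refine ⟨h, ?_⟩
          rcases mem_insert.1 hx with h1 | h1
          · exact Or.inl h1
          · exact Or.inr ⟨(mem_erase.1 h1).2, (mem_erase.1 h1).1⟩
        · exact Or.inr ⟨h, hx⟩
      have hdt : ∀ w, w ≠ t → ∀ x, x ∈ a →
          x ∈ (if j ∈ e w then insert i ((e w).erase j) else e w) → False := by
        intro w hw x hxa hxw
        have hdis := Finset.disjoint_left.1 (hd t w (Ne.symm hw))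
        rcases hmemt x hxa with h1 | ⟨h1, h1'⟩
        · rcases hmem w hw x hxw with ⟨h2, h3 | h3⟩ | ⟨h2, h3⟩
          · exact hij (h3.symm.trans h1)
          · exact h3.2 h1
          · exact h2 (h1 ▸ h3)
        · rcases hmem w hw x hxw with ⟨h2, h3 | h3⟩ | ⟨h2, h3⟩
          · exact h1' h3
          · exact hdis h1 h3.1
          · exact hdis h1 h3
      intro v w hvw
      rw [Finset.disjoint_left]
      intro x hxv hxw
      dsimp only at hxv hxw
      by_cases hv : v = t
      · rw [if_pos hv] at hxv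
        have hw : w ≠ t := fun h => hvw (hv.trans h.symm)
        rw [if_neg hw] at hxw
        exact hdt w hw x hxv hxw
      · rw [if_neg hv] at hxv
        by_cases hw : w = t
        · rw [if_pos hw] at hxw
          exact hdt v hv x hxw hxv
        · rw [if_neg hw] at hxw
          have hdis := Finset.disjoint_left.1 (hd v w hvw)
          rcases hmem v hv x hxv with ⟨h2, h3 | h3⟩ | ⟨h2, h3⟩
          · rcases hmem w hw x hxw with ⟨h4, h5 | h5⟩ | ⟨h4, h5⟩
            · exact hdis h2 h4
            · exact hdis h2 h4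
            · exact hin w hw (h3 ▸ h5)
          · rcases hmem w hw x hxw with ⟨h4, h5 | h5⟩ | ⟨h4, h5⟩
            · exact hdis h2 h4
            · exact hdis h2 h4
            · exact hdis h3.1 h5
          · rcases hmem w hw x hxw with ⟨h4, h5 | h5⟩ | ⟨h4, h5⟩
            · exact hin v hv (h5 ▸ h3)
            · exact hdis h3 h5.1
            · exact hdis h3 h5

def Shifted (H : Finset (Finset (Fin n))) : Prop :=
  ∀ i j : Fin n, i < j → ∀ e ∈ H, j ∈ e → i ∉ e → insert i (e.erase j) ∈ H

def wt (H : Finset (Finset (Fin n))) : ℕ := ∑ e ∈ H, ∑ a ∈ e, (a : ℕ)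

theorem mv_wt_le (H : Finset (Finset (Fin n))) (i j : Fin n) (hij : i < j)
    (e : Finset (Fin n)) : ∑ a ∈ mv H i j e, (a : ℕ) ≤ ∑ a ∈ e, (a : ℕ) := by
  unfold mv
  split_ifs with h
  · have hi : i ∉ e.erase j := fun hh => h.2.1 (mem_of_mem_erase hh)
    rw [sum_insert hi]
    have := Finset.add_sum_erase e (fun a : Fin n => (a : ℕ)) h.1
    have : (i : ℕ) < j := hij

    omega
  · exact le_rfl

theorem exists_shifted (H : Finset (Finset (Fin n))) (k s : ℕ) (hH : ∀ e ∈ H, e.card = k)
    (hM : NoMatching H s) : ∃ H' : Finset (Finset (Fin n)), H'.card = H.card ∧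
      (∀ e ∈ H', e.card = k) ∧ NoMatching H' s ∧ Shifted H' := by
  classical
  have hex : ∃ w : ℕ, ∃ H' : Finset (Finset (Fin n)), wt H' = w ∧ H'.card = H.card ∧
      (∀ e ∈ H', e.card = k) ∧ NoMatching H' s := ⟨wt H, H, rfl, rfl, hH, hM⟩
  obtain ⟨H', h1, h2, h3, h4⟩ := Nat.find_spec hex
  refine ⟨H', h2, h3, h4, ?_⟩
  intro i j hij e he hj hi
  by_contra hcon
  have hlt : wt (H'.image (mv H' i j)) < wt H' := by
    unfold wt
    rw [Finset.sum_image (mv_inj H' i j)]
    refine Finset.sum_lt_sum (fun a _ => mv_wt_le H' i j hij a) ⟨e, he, ?_⟩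
    have hc : j ∈ e ∧ i ∉ e ∧ insert i (e.erase j) ∉ H' := ⟨hj, hi, hcon⟩
    unfold mv
    rw [if_pos hc]
    have hi' : i ∉ e.erase j := fun hh => hi (mem_of_mem_erase hh)
    rw [sum_insert hi']
    have h5 := Finset.add_sum_erase e (fun a : Fin n => (a : ℕ)) hj
    have h6 : (i : ℕ) < j := hij

    omega
  have hmin := Nat.find_min hex (h1 ▸ hlt)
  refine hmin ⟨H'.image (mv H' i j), rfl, ?_, ?_, mv_noMatching H' i j hij.ne s h4⟩
  · rw [card_image_of_injOn (mv_inj H' i j), h2]
  · intro e he
    obtain ⟨a, ha, rfl⟩ := mem_image.1 he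
    rw [mv_card]
    exact h3 a ha

/-- replacing a set of large elements by small elements -/
theorem replace (H : Finset (Finset (Fin n))) (hS : Shifted H) : ∀ (m : ℕ)
    (S F' F : Finset (Fin n)), F'.card = m → F.card = m → Disjoint S F' → Disjoint S F →
    (∀ a ∈ F, ∀ b ∈ F', a < b) → S ∪ F' ∈ H → S ∪ F ∈ H := by
  intro m
  induction m with
  | zero =>
    intro S F' F h1 h2 _ _ _ h
    rw [card_eq_zero] at h1 h2
    subst h1; subst h2; exact h
  | succ m ih =>
    intro S F' F h1 h2 h3 h4 h5 h
    obtain ⟨j, hj⟩ := card_pos.1 (by omega : 0 < F'.card)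
    obtain ⟨i, hi⟩ := card_pos.1 (by omega : 0 < F.card)
    have hij := h5 i hi j hj
    have hiS : i ∉ S := fun hh => (Finset.disjoint_left.1 h4) hh hi
    have hjS : j ∉ S := fun hh => (Finset.disjoint_left.1 h3) hh hj
    have hiF' : i ∉ F' := fun hh => lt_irrefl _ (h5 i hi i hh)
    have h6 := hS i j hij (S ∪ F') h (mem_union_right _ hj)
      (fun hh => (mem_union.1 hh).elim hiS hiF')
    have h7 : insert i ((S ∪ F').erase j) = (insert i S) ∪ (F'.erase j) := by
      ext x
      simp only [mem_insert, mem_erase, mem_union]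
      constructor
      · rintro (h | ⟨h, h' | h'⟩)
        · exact Or.inl (Or.inl h)
        · exact Or.inl (Or.inr h')
        · exact Or.inr ⟨h, h'⟩
      · rintro ((h | h) | ⟨h, h'⟩)
        · exact Or.inl h
        · exact Or.inr ⟨fun hh => hjS (hh ▸ h), Or.inl h⟩
        · exact Or.inr ⟨h, Or.inr h'⟩
    rw [h7] at h6
    have h8 := ih (insert i S) (F'.erase j) (F.erase i) (by rw [card_erase_of_mem hj]; omega)
      (by rw [card_erase_of_mem hi]; omega)
      (by
        rw [Finset.disjoint_left]
        intro x hx hx'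
        rcases mem_insert.1 hx with h | h
        · exact hiF' (h ▸ mem_of_mem_erase hx')
        · exact (Finset.disjoint_left.1 h3) h (mem_of_mem_erase hx'))
      (by
        rw [Finset.disjoint_left]
        intro x hx hx'
        rcases mem_insert.1 hx with h | h
        · exact (mem_erase.1 hx').1 h
        · exact (Finset.disjoint_left.1 h4) h (mem_of_mem_erase hx'))
      (fun a ha b hb => h5 a (mem_of_mem_erase ha) b (mem_of_mem_erase hb)) h6
    have h9 : (insert i S) ∪ (F.erase i) = S ∪ F := by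
      ext x
      simp only [mem_insert, mem_erase, mem_union]
      constructor
      · rintro ((h | h) | ⟨_, h⟩)
        · exact Or.inr (h ▸ hi)
        · exact Or.inl h
        · exact Or.inr h
      · rintro (h | h)
        · exact Or.inl (Or.inr h)
        · by_cases hx : x = i
          · exact Or.inl (Or.inl hx)
          · exact Or.inr ⟨hx, h⟩
    rw [h9] at h8
    exact h8

/-- disjoint subsets of prescribed sizes -/
theorem fillers {V : Type*} [DecidableEq V] : ∀ (t : ℕ) (c : Fin t → ℕ) (A : Finset V),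
    ∑ i, c i ≤ A.card → ∃ F : Fin t → Finset V, (∀ i, F i ⊆ A) ∧ (∀ i, (F i).card = c i) ∧
      ∀ i j, i ≠ j → Disjoint (F i) (F j) := by
  intro t
  induction t with
  | zero => intro c A _; exact ⟨fun i => i.elim0, fun i => i.elim0, fun i => i.elim0, fun i => i.elim0⟩
  | succ t ih =>
    intro c A h
    rw [Fin.sum_univ_succ] at h
    obtain ⟨F0, hF0, hF0c⟩ := exists_subset_card_eq (by omega : c 0 ≤ A.card)
    obtain ⟨F, h1, h2, h3⟩ := ih (fun i => c i.succ) (A \ F0) (by
      rw [card_sdiff_of_subset hF0, hF0c]; omega)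
    refine ⟨Fin.cons F0 F, ?_, ?_, ?_⟩
    · intro i
      refine Fin.cases ?_ (fun j => ?_) i
      · simpa using hF0
      · simpa using (h1 j).trans sdiff_subset
    · intro i
      refine Fin.cases ?_ (fun j => ?_) i
      · simpa using hF0c
      · simpa using h2 j
    · have hd : ∀ k, Disjoint F0 (F k) := fun k =>
        Finset.disjoint_of_subset_right (h1 k) Finset.disjoint_sdiff
      intro i j hij
      induction i using Fin.cases with
      | zero =>
        induction j using Fin.cases with
        | zero => exact absurd rfl hij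
        | succ j => simpa using hd j
      | succ i =>
        induction j using Fin.cases with
        | zero => simpa using (hd i).symm
        | succ j =>
          simp only [Fin.cons_succ]
          exact h3 i j (fun h => hij (by rw [h]))

end H223R3.EMC
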